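import Mathlib
import Pool.Agent.U204.PN.Stm

set_option autoImplicit false

/-! Project PN, package LOC: the number of partitions of `x` into parts from `A` depends only on the
elements of `A` between `1` and `x`. -/

namespace Pool.Agent.U27.PN

open Pool.Agent.U204.PN

theorem t_LOC : S_LOC := by
  intro A B x h
  unfold pt
  refine Nat.card_congr (Equiv.subtypeEquivRight fun p => ?_)
  have key : ∀ i ∈ p.parts, (i ∈ A ↔ i ∈ B) := by
    intro i hi
    refine h i (p.parts_pos hi) ?_
    have h2 := Multiset.le_sum_of_mem hi
    rwa [p.parts_sum] at h2
  constructor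
  · intro hA i hi
    exact (key i hi).1 (hA i hi)
  · intro hB i hi
    exact (key i hi).2 (hB i hi)

end Pool.Agent.U27.PN
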